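import Pool.Agent.Work.MP_223b32_tc.Interface

/-!
# Block WEIL: the Weil bound for the quadratic character, from Stepanov's upper bound
-/

namespace Pool.Agent.Work.TC

open Finset Polynomial

namespace WEIL

variable {E : Type} [Field E] [Fintype E] [DecidableEq E]

theorem char_eq_one (hE : ringChar E ≠ 2) (y : E) :
    quadraticChar E y = 1 ↔ y ^ (Fintype.card E / 2) = 1 := by
  have hc := quadraticChar_eq_pow_of_char_ne_two' hE y
  have h1 : ((1 : ℤ) : E) = 1 := Int.cast_one
  have hne : (1 : E) ≠ -1 := fun h => (Ring.neg_one_ne_one_of_char_ne_two hE) h.symm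
  constructor
  · intro h
    rw [← hc, h, h1]
  · intro h
    rw [h] at hc
    rcases quadraticChar_isQuadratic E y with h0 | h0 | h0
    · rw [h0, Int.cast_zero] at hc
      exact absurd hc zero_ne_one
    · exact h0
    · rw [h0, Int.cast_neg, h1] at hc
      exact absurd hc.symm hne

theorem char_eq_neg_one (hE : ringChar E ≠ 2) (y : E) :
    quadraticChar E y = -1 ↔ y ^ (Fintype.card E / 2) = -1 := by
  have hc := quadraticChar_eq_pow_of_char_ne_two' hE y
  have h1 : ((1 : ℤ) : E) = 1 := Int.cast_one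
  have hne : (1 : E) ≠ -1 := fun h => (Ring.neg_one_ne_one_of_char_ne_two hE) h.symm
  constructor
  · intro h
    rw [← hc, h, Int.cast_neg, h1]
  · intro h
    rw [h] at hc
    rcases quadraticChar_isQuadratic E y with h0 | h0 | h0
    · rw [h0, Int.cast_zero] at hc
      exact absurd hc (neg_ne_zero.2 one_ne_zero).symm
    · rw [h0, h1] at hc
      exact absurd hc hne
    · exact h0

/-- the case of a polynomial without the root zero -/
theorem main (h : Stmt_NA) (hE : ringChar E ≠ 2) (H : E[X]) (d : ℕ) (hd : 1 ≤ d)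
    (hH : H.natDegree ≤ d) (hQ : 100 * d ^ 2 ≤ Fintype.card E) (h0 : H.eval 0 ≠ 0)
    (hsq : ¬ ∃ (c : E) (R : E[X]), H = C c * R ^ 2) :
    |((∑ x : E, quadraticChar E (H.eval x) : ℤ) : ℝ)| ≤ 8 * d * √(Fintype.card E) := by
  classical
  obtain ⟨N1, hN1⟩ : ∃ N : Finset E, N = univ.filter (fun x => quadraticChar E (H.eval x) = 1) :=
    ⟨_, rfl⟩
  obtain ⟨N2, hN2⟩ : ∃ N : Finset E, N = univ.filter (fun x => quadraticChar E (H.eval x) = -1) :=
    ⟨_, rfl⟩
  obtain ⟨N0, hN0⟩ : ∃ N : Finset E, N = univ.filter (fun x => quadraticChar E (H.eval x) = 0) :=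
    ⟨_, rfl⟩
  have hone : (1 : E) ≠ 0 := one_ne_zero
  have b1 := h E hE H d 1 hd hH hQ h0 hsq hone
  have b2 := h E hE H d (-1) hd hH hQ h0 hsq (neg_ne_zero.2 hone)
  have e1 : Nat.card {x : E // H.eval x ^ (Fintype.card E / 2) = 1} = N1.card := by
    rw [Nat.card_eq_fintype_card, Fintype.card_subtype, hN1]
    congr 1
    ext x
    rw [Finset.mem_filter, Finset.mem_filter, char_eq_one hE]
  have e2 : Nat.card {x : E // H.eval x ^ (Fintype.card E / 2) = -1} = N2.card := by
    rw [Nat.card_eq_fintype_card, Fintype.card_subtype, hN2]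
    congr 1
    ext x
    rw [Finset.mem_filter, Finset.mem_filter, char_eq_neg_one hE]
  rw [e1] at b1
  rw [e2] at b2
  have hdis1 : Disjoint N1 N2 := by
    rw [Finset.disjoint_left, hN1, hN2]
    intro x hx hx'
    rw [Finset.mem_filter] at hx hx'
    have := hx.2.symm.trans hx'.2
    norm_num at this
  have hdis2 : Disjoint (N1 ∪ N2) N0 := by
    rw [Finset.disjoint_left, hN1, hN2, hN0]
    intro x hx hx'
    rw [Finset.mem_union, Finset.mem_filter, Finset.mem_filter] at hx
    rw [Finset.mem_filter] at hx'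
    rcases hx with hx | hx
    · have := hx.2.symm.trans hx'.2
      norm_num at this
    · have := hx.2.symm.trans hx'.2
      norm_num at this
  have huniv : N1 ∪ N2 ∪ N0 = univ := by
    rw [Finset.eq_univ_iff_forall, hN1, hN2, hN0]
    intro x
    rw [Finset.mem_union, Finset.mem_union, Finset.mem_filter, Finset.mem_filter,
      Finset.mem_filter]
    rcases quadraticChar_isQuadratic E (H.eval x) with h3 | h3 | h3
    · exact Or.inr ⟨Finset.mem_univ _, h3⟩
    · exact Or.inl (Or.inl ⟨Finset.mem_univ _, h3⟩)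
    · exact Or.inl (Or.inr ⟨Finset.mem_univ _, h3⟩)
  have hcard : N1.card + N2.card + N0.card = Fintype.card E := by
    rw [← Finset.card_union_of_disjoint hdis1, ← Finset.card_union_of_disjoint hdis2, huniv,
      Finset.card_univ]
  have hsum : (∑ x : E, quadraticChar E (H.eval x) : ℤ) = N1.card - N2.card := by
    rw [← huniv, Finset.sum_union hdis2, Finset.sum_union hdis1]
    have s1 : ∑ x ∈ N1, quadraticChar E (H.eval x) = N1.card := by
      rw [Finset.sum_congr rfl (g := fun _ => (1 : ℤ)) (fun x hx => by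
        rw [hN1, Finset.mem_filter] at hx
        exact hx.2)]
      simp
    have s2 : ∑ x ∈ N2, quadraticChar E (H.eval x) = -N2.card := by
      rw [Finset.sum_congr rfl (g := fun _ => (-1 : ℤ)) (fun x hx => by
        rw [hN2, Finset.mem_filter] at hx
        exact hx.2)]
      simp
    have s0 : ∑ x ∈ N0, quadraticChar E (H.eval x) = 0 := by
      refine Finset.sum_eq_zero fun x hx => ?_
      rw [hN0, Finset.mem_filter] at hx
      exact hx.2
    rw [s1, s2, s0]
    ring
  have hH0 : H ≠ 0 := by
    rintro rfl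
    rw [eval_zero] at h0
    exact h0 rfl
  have hN0d : N0.card ≤ d := by
    have h4 : N0 ⊆ H.roots.toFinset := by
      intro x hx
      rw [hN0, Finset.mem_filter] at hx
      rw [Multiset.mem_toFinset, mem_roots hH0]
      exact quadraticChar_eq_zero_iff.1 hx.2
    calc N0.card ≤ H.roots.toFinset.card := Finset.card_le_card h4
      _ ≤ Multiset.card H.roots := Multiset.toFinset_card_le _
      _ ≤ H.natDegree := card_roots' H
      _ ≤ d := hH
  have hcr : (N1.card : ℝ) + N2.card + N0.card = Fintype.card E := by exact_mod_cast hcard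
  have hdr : (N0.card : ℝ) ≤ d := by exact_mod_cast hN0d
  have hQ1 : (1 : ℝ) ≤ Fintype.card E := by
    have : 1 ≤ Fintype.card E := Fintype.card_pos
    exact_mod_cast this
  have hs1 : 1 ≤ √(Fintype.card E : ℝ) := Real.one_le_sqrt.2 hQ1
  have hd0 : (0 : ℝ) ≤ d := Nat.cast_nonneg d
  have hds : (d : ℝ) ≤ d * √(Fintype.card E : ℝ) := by
    have := mul_le_mul_of_nonneg_left hs1 hd0
    linarith
  have hN0r : (0 : ℝ) ≤ N0.card := Nat.cast_nonneg _
  rw [hsum]
  push_cast
  rw [abs_le]
  constructor
  · linarith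
  · linarith

end WEIL

/-- **WEIL** -/
theorem stmt_WEIL (h : Stmt_NA) : Stmt_WEIL := by
  classical
  intro E _ _ _ hE H d hd hH hQ hsq
  have hH0 : H ≠ 0 := by
    intro h0
    apply hsq
    exact ⟨0, 0, by rw [h0]; simp⟩
  obtain ⟨x0, hx0⟩ : ∃ x0 : E, H.eval x0 ≠ 0 := by
    by_contra hno
    push Not at hno
    have h1 : (univ : Finset E) ⊆ H.roots.toFinset := by
      intro x _
      rw [Multiset.mem_toFinset, mem_roots hH0]
      exact hno x
    have h2 : Fintype.card E ≤ d := by
      calc Fintype.card E = (univ : Finset E).card := Finset.card_univ.symm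
        _ ≤ H.roots.toFinset.card := Finset.card_le_card h1
        _ ≤ Multiset.card H.roots := Multiset.toFinset_card_le _
        _ ≤ H.natDegree := card_roots' H
        _ ≤ d := hH
    have h3 : d ≤ d ^ 2 := Nat.le_self_pow (by norm_num) d
    omega
  have h1 := WEIL.main h hE (H.comp (X + C x0)) d hd (by
    refine le_trans natDegree_comp_le ?_
    rw [natDegree_X_add_C, mul_one]
    exact hH) hQ (by
    rw [eval_comp, eval_add, eval_X, eval_C, zero_add]
    exact hx0) (by
    rintro ⟨c, R, hR⟩
    apply hsq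
    refine ⟨c, R.comp (X - C x0), ?_⟩
    have h2 : (H.comp (X + C x0)).comp (X - C x0) = H := by
      rw [comp_assoc]
      simp
    rw [hR] at h2
    rw [← h2]
    simp)
  have h2 : (∑ x : E, quadraticChar E ((H.comp (X + C x0)).eval x) : ℤ)
      = ∑ x : E, quadraticChar E (H.eval x) := by
    rw [← Equiv.sum_comp (Equiv.addRight x0) (fun x => quadraticChar E (H.eval x))]
    refine Finset.sum_congr rfl fun x _ => ?_
    rw [eval_comp, eval_add, eval_X, eval_C]
    rfl
  rw [h2] at h1
  exact h1

end Pool.Agent.Work.TC
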